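import Pool.Agent.Helper63.XR.StA

set_option autoImplicit false

namespace Pool.Agent.Helper62.XR

open Finset Pool.Agent.Helper63.XR

/-- double counting -/
theorem dbl {U T : Type} [Fintype U] [DecidableEq U] [Fintype T] [DecidableEq T]
    (G : T → Finset U) (f : U → ℝ) (hf : ∀ u, 0 ≤ f u) (a1 : ℕ)
    (hpar : ∀ u, (univ.filter fun t => u ∈ G t).card ≤ a1) :
    ∑ t, ∑ u ∈ G t, f u ≤ a1 * ∑ u, f u := by
  have h1 : ∀ t, ∑ u ∈ G t, f u = ∑ u, if u ∈ G t then f u else 0 := by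
    intro t
    rw [Finset.sum_ite_mem, Finset.univ_inter]
  rw [Finset.sum_congr rfl (fun t _ => h1 t), Finset.sum_comm, Finset.mul_sum]
  apply Finset.sum_le_sum
  intro u _
  rw [← Finset.sum_filter, Finset.sum_const, nsmul_eq_mul]
  apply mul_le_mul_of_nonneg_right _ (hf u)
  exact_mod_cast hpar u

theorem wsum_le {U : Type} (G : Finset U) (w : ℝ) (hw : 0 ≤ w ∧ w ≤ 1) (y : U → ℂ) :
    ‖(w : ℂ) * ∑ u ∈ G, y u‖ ≤ ∑ u ∈ G, ‖y u‖ := by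
  rw [norm_mul, Complex.norm_real, Real.norm_of_nonneg hw.1]
  have h1 : ‖∑ u ∈ G, y u‖ ≤ ∑ u ∈ G, ‖y u‖ := norm_sum_le _ _
  have h2 : (0 : ℝ) ≤ ∑ u ∈ G, ‖y u‖ := Finset.sum_nonneg fun _ _ => norm_nonneg _
  calc w * ‖∑ u ∈ G, y u‖ ≤ 1 * ∑ u ∈ G, ‖y u‖ :=
        mul_le_mul hw.2 h1 (norm_nonneg _) zero_le_one
    _ = _ := one_mul _

theorem hDEC : StDec := by
  intro hBon U T _ _ _ _ G w y1 y2 κ ζ ε τ z s0 a1 a2 hw hG hpar hcard hy1 hy2 hζ hζε hsum hτ hκ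
    hs0 hin hnoi
  obtain ⟨p, hp⟩ : ∃ p : T → ℂ, ∀ t, p t = (w t : ℂ) * ∑ u ∈ G t, y1 u := ⟨_, fun _ => rfl⟩
  obtain ⟨n, hn⟩ : ∃ n : T → ℂ, ∀ t, n t = (w t : ℂ) * ∑ u ∈ G t, y2 u := ⟨_, fun _ => rfl⟩
  have hp1 : ∀ t, ‖p t‖ ≤ ∑ u ∈ G t, ‖y1 u‖ := fun t => by rw [hp]; exact wsum_le _ _ (hw t) _
  have hn1 : ∀ t, ‖n t‖ ≤ ∑ u ∈ G t, ‖y2 u‖ := fun t => by rw [hn]; exact wsum_le _ _ (hw t) _
  have hy2u : ∀ u, ‖y2 u‖ ≤ ζ := by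
    intro u
    have h1 : ‖y2 u‖ ^ 2 ≤ ∑ u, ‖y2 u‖ ^ 2 :=
      Finset.single_le_sum (f := fun u => ‖y2 u‖ ^ 2) (fun _ _ => sq_nonneg _) (Finset.mem_univ u)
    exact (pow_le_pow_iff_left₀ (norm_nonneg _) hζ two_ne_zero).1 (h1.trans hy2)
  have hy1u : ∀ t, ∀ u ∈ G t, ‖y1 u‖ ≤ 2 * ε := by
    intro t u hu
    have h1 : y1 u = (y1 u + y2 u) - y2 u := by ring
    have h2 : ‖y1 u‖ ≤ ‖y1 u + y2 u‖ + ‖y2 u‖ := by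
      conv_lhs => rw [h1]
      exact norm_sub_le _ _
    have h3 := hsum t u hu
    have h4 := hy2u u
    linarith
  have hε : 0 ≤ ε := hζ.trans hζε
  have hn2 : ∀ t, ‖n t‖ ^ 2 ≤ a2 * ∑ u ∈ G t, ‖y2 u‖ ^ 2 := by
    intro t
    have h1 : ‖n t‖ ^ 2 ≤ (∑ u ∈ G t, ‖y2 u‖) ^ 2 := pow_le_pow_left₀ (norm_nonneg _) (hn1 t) 2
    have h2 : (∑ u ∈ G t, ‖y2 u‖) ^ 2 ≤ (G t).card * ∑ u ∈ G t, ‖y2 u‖ ^ 2 :=
      sq_sum_le_card_mul_sum_sq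
    have h3 : ((G t).card : ℝ) ≤ a2 := by exact_mod_cast hcard t
    have h4 : (0 : ℝ) ≤ ∑ u ∈ G t, ‖y2 u‖ ^ 2 := Finset.sum_nonneg fun _ _ => sq_nonneg _
    exact h1.trans (h2.trans (mul_le_mul_of_nonneg_right h3 h4))
  have hb := hBon U T (fun u => ‖y1 u‖) G κ (2 * ε) τ s0 (univ.filter fun t => τ ≤ ‖p t‖)
    (fun t => ‖p t‖) (fun u => norm_nonneg _) hy1 (fun t _ u hu => hy1u t u hu)
    (fun t _ t' _ htt => hG t t' htt) (fun t ht => (Finset.mem_filter.1 ht).2)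
    (fun t _ => hp1 t) hκ hs0 (by linarith)
  refine ⟨fun t => if τ ≤ ‖p t‖ then p t else 0,
    fun t => (if τ ≤ ‖p t‖ then 0 else p t) + n t, ?_, ?_, ?_⟩
  · intro t
    rw [Finset.sum_add_distrib, mul_add, ← hp, ← hn]
    show p t + n t = (if τ ≤ ‖p t‖ then p t else 0) + ((if τ ≤ ‖p t‖ then 0 else p t) + n t)
    split_ifs <;> ring
  · have h1 : ∀ t, ‖(if τ ≤ ‖p t‖ then p t else 0)‖ = if τ ≤ ‖p t‖ then ‖p t‖ else 0 := by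
      intro t
      split_ifs
      · rfl
      · exact norm_zero
    rw [Finset.sum_congr rfl (fun t _ => h1 t), ← Finset.sum_filter]
    exact hb.2
  · have hq : ∀ t, ‖(if τ ≤ ‖p t‖ then 0 else p t)‖ ^ 2 ≤ τ * ∑ u ∈ G t, ‖y1 u‖ := by
      intro t
      have h0 : (0 : ℝ) ≤ ∑ u ∈ G t, ‖y1 u‖ := Finset.sum_nonneg fun _ _ => norm_nonneg _
      split_ifs with h
      · rw [norm_zero]
        have := mul_nonneg hτ.le h0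
        simpa using this
      · have h1 : ‖p t‖ ≤ τ := (not_le.1 h).le
        rw [sq]
        exact mul_le_mul h1 (hp1 t) (norm_nonneg _) hτ.le
    have hpt : ∀ t, ‖(if τ ≤ ‖p t‖ then 0 else p t) + n t‖ ^ 2
        ≤ 2 * (τ * ∑ u ∈ G t, ‖y1 u‖) + 2 * (a2 * ∑ u ∈ G t, ‖y2 u‖ ^ 2) := by
      intro t
      have h1 := hq t
      have h2 := hn2 t
      have h3 : ‖(if τ ≤ ‖p t‖ then 0 else p t) + n t‖
          ≤ ‖(if τ ≤ ‖p t‖ then 0 else p t)‖ + ‖n t‖ := norm_add_le _ _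
      have h4 : ‖(if τ ≤ ‖p t‖ then 0 else p t) + n t‖ ^ 2
          ≤ (‖(if τ ≤ ‖p t‖ then 0 else p t)‖ + ‖n t‖) ^ 2 :=
        pow_le_pow_left₀ (norm_nonneg _) h3 2
      have h5 : (‖(if τ ≤ ‖p t‖ then 0 else p t)‖ + ‖n t‖) ^ 2
          ≤ 2 * ‖(if τ ≤ ‖p t‖ then 0 else p t)‖ ^ 2 + 2 * ‖n t‖ ^ 2 := by
        nlinarith [sq_nonneg (‖(if τ ≤ ‖p t‖ then 0 else p t)‖ - ‖n t‖)]
      linarith
    have hd1 := dbl G (fun u => ‖y1 u‖) (fun _ => norm_nonneg _) a1 hpar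
    have hd2 := dbl G (fun u => ‖y2 u‖ ^ 2) (fun _ => sq_nonneg _) a1 hpar
    have ha1 : (0 : ℝ) ≤ a1 := Nat.cast_nonneg _
    have ha2 : (0 : ℝ) ≤ a2 := Nat.cast_nonneg _
    have he1 : τ * ∑ t, ∑ u ∈ G t, ‖y1 u‖ ≤ (z / 2) ^ 2 := by
      calc τ * ∑ t, ∑ u ∈ G t, ‖y1 u‖ ≤ τ * (a1 * κ) :=
            mul_le_mul_of_nonneg_left (hd1.trans (mul_le_mul_of_nonneg_left hy1 ha1)) hτ.le
        _ = τ * a1 * κ := by ring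
        _ ≤ _ := hin
    have he2 : (a2 : ℝ) * ∑ t, ∑ u ∈ G t, ‖y2 u‖ ^ 2 ≤ (z / 2) ^ 2 := by
      calc (a2 : ℝ) * ∑ t, ∑ u ∈ G t, ‖y2 u‖ ^ 2 ≤ a2 * (a1 * ζ ^ 2) :=
            mul_le_mul_of_nonneg_left (hd2.trans (mul_le_mul_of_nonneg_left hy2 ha1)) ha2
        _ = a1 * a2 * ζ ^ 2 := by ring
        _ ≤ _ := hnoi
    calc ∑ t, ‖(if τ ≤ ‖p t‖ then 0 else p t) + n t‖ ^ 2
        ≤ ∑ t, (2 * (τ * ∑ u ∈ G t, ‖y1 u‖) + 2 * (a2 * ∑ u ∈ G t, ‖y2 u‖ ^ 2)) :=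
          Finset.sum_le_sum fun t _ => hpt t
      _ = 2 * (τ * ∑ t, ∑ u ∈ G t, ‖y1 u‖) + 2 * (a2 * ∑ t, ∑ u ∈ G t, ‖y2 u‖ ^ 2) := by
          rw [Finset.sum_add_distrib, ← Finset.mul_sum, ← Finset.mul_sum, ← Finset.mul_sum,
            ← Finset.mul_sum]
      _ ≤ 2 * (z / 2) ^ 2 + 2 * (z / 2) ^ 2 := by linarith
      _ = z ^ 2 := by ring

end Pool.Agent.Helper62.XR
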